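import Pool.Agent.Helper6.CS.Goals1

/-!
Project CS (MP_81e84b_lc): packet CS-BND.
-/

namespace Pool.Agent.Helper95.CS

open Pool.Agent.Helper6.CS

set_option synthInstance.maxSize 1000000000

/-- Packet CS-BND. -/
theorem t_BND : G_BND := by
  intro M _ L N
  revert N
  refine ind (P := fun N : M => ∃ K : M, ∀ a : Wd M, Over L a → a.len ≤ N → (Cod.cd a : M) < K)
    inferInstance ?_ ?_
  · refine ⟨Cod.cd (Wd.nil M) + 1, fun a _ h => ?_⟩
    have h1 : a.len = 0 := le_antisymm h (World.zero_le' _)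
    rw [Wd.eq_nil_of_len h1, World.lt_succ]
  · rintro N ⟨K, hK⟩
    have h1 : ∀ e : M, e < L → ∃ B : M, ∀ c, c < K → (Cod.cd (dec c ++ Wd.sg e) : M) < B :=
      fun e _ => bdd (fun c : M => (Cod.cd (dec c ++ Wd.sg e) : M)) K
    obtain ⟨B, hB⟩ := coll
      (fun e B : M => ∀ c, c < K → (Cod.cd (dec c ++ Wd.sg e) : M) < B) L h1
    refine ⟨max K B, fun a ha hl => ?_⟩
    rcases hl.lt_or_eq with h | h
    · rw [World.lt_succ] at h
      exact lt_of_lt_of_le (hK a ha h) (le_max_left _ _)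
    · obtain ⟨t, ht, htl⟩ := Wd.exists_snoc h
      have h2 : Over L (t ++ Wd.sg (a.get N)) := ht ▸ ha
      rw [Over.append_iff, Over.sg_iff] at h2
      obtain ⟨m, hm, h3⟩ := hB _ h2.2
      have h4 := h3 (Cod.cd t) (hK t h2.1 htl.le)
      rw [dec_cd, ← ht] at h4
      exact lt_of_lt_of_le (h4.trans hm) (le_max_right _ _)

end Pool.Agent.Helper95.CS
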